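import Pool.Agent.Helper71.AG2.Goals

/-!
# PROJECT AG+, packet ABP: images and preimages of groups with commutative `p`-subgroups

Adapted from `Pool/Agent/Helper56/AG/AGQ.lean` to one prime.
-/

set_option autoImplicit false

namespace Pool.Agent.Helper2.AG2

open Pool.Agent.Helper71.AG2

universe u

theorem abp_inj (G G' : Type u) [Group G] [Group G'] (p : ℕ) (f : G →* G')
    (hf : Function.Injective f) (h : AbP p G') : AbP p G := by
  intro P hP x hx y hy
  apply hf
  rw [map_mul, map_mul]
  exact h (P.map f) (hP.map f) _ (Subgroup.mem_map_of_mem f hx) _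
    (Subgroup.mem_map_of_mem f hy)

theorem abp_surj (G G' : Type u) [Group G] [Group G'] [Finite G] (p : ℕ) (f : G →* G')
    (hp : p.Prime) (hf : Function.Surjective f) (h : AbP p G) : AbP p G' := by
  intro P hP x hx y hy
  have : Fact p.Prime := ⟨hp⟩
  have hs : Function.Surjective (f.subgroupComap P) :=
    MonoidHom.subgroupComap_surjective_of_surjective f P hf
  obtain ⟨Q⟩ : Nonempty (Sylow p (P.comap f)) := inferInstance
  have htop : IsPGroup p (⊤ : Subgroup P) := hP.to_subgroup ⊤
  have hQ : (⊤ : Subgroup P) = (Q.mapSurjective hs : Subgroup P) :=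
    (Q.mapSurjective hs).is_maximal' htop le_top
  have key : ∀ z ∈ P, ∃ g ∈ (Q : Subgroup (P.comap f)).map (P.comap f).subtype, f g = z := by
    intro z hz
    have h1 : (⟨z, hz⟩ : P) ∈ (Q.mapSurjective hs : Subgroup P) := by
      rw [← hQ]
      exact Subgroup.mem_top _
    rw [Sylow.coe_mapSurjective] at h1
    obtain ⟨g, hg, hgz⟩ := h1
    exact ⟨(g : G), ⟨g, hg, rfl⟩, congrArg Subtype.val hgz⟩
  obtain ⟨a, ha, rfl⟩ := key x hx
  obtain ⟨b, hb, rfl⟩ := key y hy
  have h2 : IsPGroup p ((Q : Subgroup (P.comap f)).map (P.comap f).subtype) :=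
    Q.isPGroup'.map _
  rw [← map_mul, ← map_mul, h _ h2 a ha b hb]

theorem abp : AbpStmt.{u} := ⟨abp_surj, abp_inj⟩

end Pool.Agent.Helper2.AG2
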